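import Pool.Agent.MP_5f72fe_nt.H3.SpecC

/-! Representations by the ternary form and ideal classes. -/

namespace Pool.Agent.MP_5f72fe_nt.H11

open Pool.Agent.MP_5f72fe_nt.H3 NumberField
open scoped nonZeroDivisors

namespace Ven

theorem rc (hO : RowQO) {x y α : OO} (hα : α ≠ 0) (h : x * α = y * α) : x = y := by
  have : (x - y) * α = 0 := by rw [sub_mul, h, sub_self]
  exact sub_eq_zero.mp ((hO.noZero _ _ this).resolve_right hα)

theorem lc (hO : RowQO) {x y α : OO} (hα : α ≠ 0) (h : α * x = α * y) : x = y := by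
  have : α * (x - y) = 0 := by rw [mul_sub, h, sub_self]
  exact sub_eq_zero.mp ((hO.noZero _ _ this).resolve_left hα)

theorem mne (hO : RowQO) {x y : OO} (hx : x ≠ 0) (hy : y ≠ 0) : x * y ≠ 0 :=
  fun h => (hO.noZero _ _ h).elim hx hy

theorem int_inj {a b : ℤ} (h : (a : OO) = b) : a = b := by
  have := congrArg QuaternionAlgebra.re h
  simpa using this

theorem int_ne {a : ℤ} (h : a ≠ 0) : (a : OO) ≠ 0 := fun h0 => h (int_inj (by simpa using h0))

theorem two_ne : (2 : OO) ≠ 0 := by exact_mod_cast int_ne (a := 2) (by norm_num)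

theorem three_ne : (3 : OO) ≠ 0 := by exact_mod_cast int_ne (a := 3) (by norm_num)

theorem nr_one : nr 1 = 1 := by simp [nr]

theorem star_emb (v : V) : star (emb v) = -emb v := by
  ext <;> simp [emb]
  ring

theorem mem_Rp {n : ℕ} {v : V} (h : v ∈ Rp n) : v.2.1 ^ 2 + 3 * v.1 ^ 2 + 3 * v.2.2 ^ 2 = n :=
  (Finset.mem_filter.mp h).2.1

theorem emb_sq (hO : RowQO) {n : ℕ} {v : V} (h : v ∈ Rp n) : emb v * emb v = -(n : OO) := by
  rw [hO.embSq, mem_Rp h, Int.cast_natCast]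

/-- an optimal embedding -/
structure Em (n : ℕ) (v₀ : V) (x₀ : OO) {R : Type} [CommRing R] (ι : R →+* OO) : Prop where
  md : n % 12 = 7
  sf : Squarefree n
  mem : v₀ ∈ Rp n
  hx : emb v₀ = 2 * x₀ - 1
  comm : ∀ z, ι z * x₀ = x₀ * ι z
  surj : ∀ α, α * x₀ = x₀ * α → ∃ z, ι z = α
  inj : Function.Injective ι

variable {n : ℕ} {v₀ : V} {x₀ : OO} {R : Type} [CommRing R] {ι : R →+* OO}

theorem Em.comm' (E : Em n v₀ x₀ ι) (z : R) : ι z * emb v₀ = emb v₀ * ι z := by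
  rw [E.hx, mul_sub, sub_mul, mul_assoc, ← E.comm z]
  noncomm_ring

theorem Em.surj' (hO : RowQO) (E : Em n v₀ x₀ ι) {α : OO} (h : α * emb v₀ = emb v₀ * α) :
    ∃ z, ι z = α := by
  apply E.surj
  apply lc hO two_ne
  rw [E.hx] at h
  have e : 2 * (α * x₀) - 2 * (x₀ * α) = α * (2 * x₀ - 1) - (2 * x₀ - 1) * α := by noncomm_ring
  rw [h, sub_self] at e
  exact sub_eq_zero.mp e

theorem Em.ne (E : Em n v₀ x₀ ι) {z : R} (h : z ≠ 0) : ι z ≠ 0 :=
  fun h0 => h (E.inj (by rw [h0, map_zero]))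

/-- the left ideal generated by an ideal -/
def LL (ι : R →+* OO) (I : Ideal R) : Ideal OO := Ideal.span (ι '' I)

def Gen (ι : R →+* OO) (I : Ideal R) (α : OO) : Prop := ∀ x, x ∈ LL ι I ↔ ∃ y, x = y * α

def Rel (ι : R →+* OO) (v₀ v : V) (I : Ideal R) : Prop :=
  ∃ α, α ≠ 0 ∧ Gen ι I α ∧ α * emb v₀ = emb v * α

theorem mem_LL {I : Ideal R} {t : R} (h : t ∈ I) : ι t ∈ LL ι I := Ideal.subset_span ⟨t, h, rfl⟩

theorem LL_le {I : Ideal R} {J : Ideal OO} (h : ∀ t ∈ I, ι t ∈ J) : LL ι I ≤ J :=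
  Ideal.span_le.mpr (by rintro _ ⟨t, ht, rfl⟩; exact h t ht)

theorem span_right {S : Set OO} {J : Ideal OO} {c : OO} (h : ∀ g ∈ S, g * c ∈ J) {y : OO}
    (hy : y ∈ Ideal.span S) : y * c ∈ J := by
  induction hy using Submodule.span_induction with
  | mem x hx => exact h x hx
  | zero => simp
  | add x y _ _ hx hy => rw [add_mul]; exact J.add_mem hx hy
  | smul a x _ hx => rw [smul_eq_mul, mul_assoc]; exact J.mul_mem_left a hx

theorem LL_right {I J : Ideal R} {c : R} (h : ∀ t ∈ I, t * c ∈ J) {y : OO} (hy : y ∈ LL ι I) :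
    y * ι c ∈ LL ι J := by
  refine span_right ?_ hy
  rintro _ ⟨t, ht, rfl⟩
  rw [← map_mul]; exact mem_LL (h t ht)

theorem gen_of {I : Ideal R} {α : OO} (h1 : α ∈ LL ι I) (h2 : ∀ t ∈ I, ∃ y, ι t = y * α) :
    Gen ι I α := fun x =>
  ⟨fun hx => by
    have : LL ι I ≤ Ideal.span {α} := LL_le fun t ht => by
      obtain ⟨y, hy⟩ := h2 t ht
      exact Ideal.mem_span_singleton'.mpr ⟨y, hy.symm⟩
    obtain ⟨y, hy⟩ := Ideal.mem_span_singleton'.mp (this hx)
    exact ⟨y, hy.symm⟩,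
  fun ⟨y, hy⟩ => hy ▸ (LL ι I).mul_mem_left y h1⟩

theorem Gen.mem {I : Ideal R} {α : OO} (h : Gen ι I α) : α ∈ LL ι I :=
  (h α).mpr ⟨1, (one_mul α).symm⟩

theorem Gen.mul {I : Ideal R} {α : OO} (h : Gen ι I α) (z : R) :
    Gen ι (Ideal.span {z} * I) (α * ι z) := by
  refine gen_of (LL_right (fun t ht => ?_) h.mem) fun t ht => ?_
  · exact Ideal.mem_span_singleton_mul.mpr ⟨t, ht, mul_comm _ _⟩
  · obtain ⟨u, hu, rfl⟩ := Ideal.mem_span_singleton_mul.mp ht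
    obtain ⟨y, hy⟩ := (h _).mp (mem_LL hu)
    exact ⟨y, by rw [mul_comm, map_mul, hy, mul_assoc]⟩

theorem gen_single (b : R) : Gen ι (Ideal.span {b}) (ι b) :=
  gen_of (mem_LL (Ideal.mem_span_singleton_self b)) fun t ht => by
    obtain ⟨r, rfl⟩ := Ideal.mem_span_singleton'.mp ht
    exact ⟨ι r, map_mul _ _ _⟩

theorem Rel.ne_bot {v : V} {I : Ideal R} (h : Rel ι v₀ v I) : I ≠ ⊥ := by
  obtain ⟨α, h0, h1, -⟩ := h
  rintro rfl
  have : LL ι ⊥ ≤ ⊥ := LL_le fun t ht => by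
    rw [Ideal.mem_bot] at ht ⊢
    rw [ht, map_zero]
  exact h0 (Ideal.mem_bot.mp (this h1.mem))

theorem rel_ex (hO : RowQO) (hG : RowQG) (E : Em n v₀ x₀ ι) {I : Ideal R} (hI : I ≠ ⊥) :
    ∃ v ∈ Rp n, Rel ι v₀ v I ∧ ((∃ t ∈ I, ¬ 3 ∣ nr (ι t)) → 3 ∣ v.2.1 - v₀.2.1) := by
  obtain ⟨α, hα⟩ := hO.prin (LL ι I)
  have hg : Gen ι I α := hα
  have h0 : α ≠ 0 := by
    obtain ⟨t, ht, ht0⟩ := Submodule.exists_mem_ne_zero_of_ne_bot hI
    obtain ⟨y, hy⟩ := (hg _).mp (mem_LL ht)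
    rintro rfl
    exact E.ne ht0 (by rw [hy, mul_zero])
  obtain ⟨w, hw⟩ := E.surj x₀ rfl
  obtain ⟨x, hx⟩ := (hg _).mp (LL_right (c := w) (fun t ht => I.mul_mem_right w ht) hg.mem)
  rw [hw] at hx
  have h1 : α * emb v₀ = (2 * x - 1) * α := by
    have e : α * (2 * x₀ - 1) = 2 * (α * x₀) - α := by noncomm_ring
    rw [E.hx, e, hx]; noncomm_ring
  have h2 : (2 * x - 1) * (2 * x - 1) = -(n : OO) := by
    apply rc hO h0
    rw [mul_assoc, ← h1, ← mul_assoc, ← h1, mul_assoc, emb_sq hO E.mem, mul_neg, neg_mul,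
      (Nat.cast_commute n α).eq]
  have hm := E.md
  obtain ⟨v, hv, hv'⟩ := (hO.half n x (by omega)).mp h2
  rw [← hv'] at h1
  refine ⟨v, hv, ⟨α, h0, hg, h1⟩, ?_⟩
  rintro ⟨t, ht, h3⟩
  obtain ⟨y, hy⟩ := (hg _).mp (mem_LL ht)
  have h4 : ¬ 3 ∣ nr α := fun h => h3 (by rw [hy, hO.nrMul]; exact h.mul_left _)
  have := hG.ori n v₀ v α hm E.mem hv h4 h1
  omega

theorem ex_rel (hO : RowQO) (hG : RowQG) (E : Em n v₀ x₀ ι) {v : V} (hv : v ∈ Rp n)
    (h3 : 3 ∣ v.2.1 - v₀.2.1) : ∃ I, Rel ι v₀ v I := by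
  have hm := E.md
  obtain ⟨x, hx⟩ := hO.half' n v (by omega) hv
  obtain ⟨γ, hγ⟩ : ∃ γ, γ = x + x₀ - 1 := ⟨_, rfl⟩
  have h2 : 2 * γ = emb v + emb v₀ := by rw [hx, E.hx, hγ]; noncomm_ring
  have h1 : γ * emb v₀ = emb v * γ := by
    apply lc hO two_ne
    have e : 2 * (emb v * γ) = emb v * (2 * γ) := by noncomm_ring
    rw [e, ← mul_assoc, h2, add_mul, mul_add, emb_sq hO E.mem, emb_sq hO hv, add_comm]
  have h0 : γ ≠ 0 := by
    rintro rfl
    rw [mul_zero] at h2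
    have a1 := congrArg QuaternionAlgebra.imJ h2
    have a2 := congrArg QuaternionAlgebra.imK h2
    simp [emb] at a1 a2
    obtain ⟨y, hy⟩ : 3 ∣ v₀.2.1 := by omega
    have a3 := mem_Rp E.mem
    rw [hy] at a3
    have a4 : (3 : ℤ) ∣ n := ⟨3 * y ^ 2 + v₀.1 ^ 2 + v₀.2.2 ^ 2, by rw [← a3]; ring⟩
    omega
  let I : Ideal R :=
    { carrier := {z | ∃ g, g * emb v = emb v₀ * g ∧ ι z = g * γ}
      add_mem' := by
        rintro a b ⟨g, g1, g2⟩ ⟨k, k1, k2⟩
        exact ⟨g + k, by rw [add_mul, mul_add, g1, k1], by rw [map_add, add_mul, g2, k2]⟩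
      zero_mem' := ⟨0, by simp, by simp⟩
      smul_mem' := by
        rintro r a ⟨g, g1, g2⟩
        exact ⟨ι r * g, by rw [mul_assoc, g1, ← mul_assoc, E.comm', mul_assoc],
          by rw [smul_eq_mul, map_mul, g2, mul_assoc]⟩ }
  obtain ⟨α, hα⟩ := hO.prin (Ideal.span {g | g * emb v = emb v₀ * g})
  have hn : nr α = 1 := hG.gen n v₀ v α hm E.sf E.mem hv (by omega)
    fun g hg => (hα g).mp (Ideal.subset_span hg)
  have h4 : (1 : OO) ∈ Ideal.span {g | g * emb v = emb v₀ * g} :=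
    (hα 1).mpr ⟨star α, by rw [(hO.nrStar α).2, hn, Int.cast_one]⟩
  have h5 : γ ∈ LL ι I := by
    have := span_right (J := LL ι I) (c := γ) (fun g hg => by
      obtain ⟨z, hz⟩ := E.surj' hO (α := g * γ)
        (by rw [mul_assoc, h1, ← mul_assoc, hg, mul_assoc])
      rw [← hz]
      exact mem_LL ⟨g, hg, hz⟩) h4
    rwa [one_mul] at this
  exact ⟨I, γ, h0, gen_of h5 fun t ⟨g, _, g2⟩ => ⟨g, g2⟩, h1⟩

variable [IsDedekindDomain R]

theorem le_of_LL (hO : RowQO) (E : Em n v₀ x₀ ι) {A B : Ideal R} (hB : B ≠ ⊥)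
    (h : LL ι A ≤ LL ι B) : A ≤ B := by
  obtain ⟨b, hb, hb0⟩ := Submodule.exists_mem_ne_zero_of_ne_bot hB
  obtain ⟨C, hC⟩ := Ideal.dvd_iff_le.mpr ((Ideal.span_singleton_le_iff_mem B).mpr hb)
  have hC0 : C ≠ 0 := by
    rintro rfl
    rw [mul_zero] at hC
    exact hb0 (Ideal.span_singleton_eq_bot.mp hC)
  have h1 : A * C ≤ B * C := by
    refine Ideal.mul_le.mpr fun t ht c hc => ?_
    have h2 := LL_right (ι := ι) (J := B * C) (c := c) (fun u hu => Ideal.mul_mem_mul hu hc)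
      (h (mem_LL ht))
    rw [← hC] at h2 ⊢
    obtain ⟨δ, hδ⟩ := (gen_single b _).mp h2
    rw [← map_mul] at hδ
    obtain ⟨r, rfl⟩ := E.surj δ (rc hO (E.ne hb0) (by
      rw [mul_assoc, ← E.comm, ← mul_assoc, ← hδ, E.comm, hδ, mul_assoc]))
    rw [← map_mul] at hδ
    exact Ideal.mem_span_singleton'.mpr ⟨r, (E.inj hδ).symm⟩
  exact Ideal.dvd_iff_le.mp ((mul_dvd_mul_iff_right hC0).mp (Ideal.dvd_iff_le.mpr h1))

theorem cls_iff (hO : RowQO) (E : Em n v₀ x₀ ι) {v w : V} {I J : (Ideal R)⁰}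
    (hI : Rel ι v₀ v I) (hJ : Rel ι v₀ w J) :
    ClassGroup.mk0 I = ClassGroup.mk0 J ↔ ∃ u : OO, nr u = 1 ∧ u * emb v = emb w * u := by
  have I0 := hI.ne_bot
  have J0 := hJ.ne_bot
  obtain ⟨α, a0, a1, a2⟩ := hI
  obtain ⟨β, b0, b1, b2⟩ := hJ
  rw [ClassGroup.mk0_eq_mk0_iff]
  constructor
  · rintro ⟨x, y, hx, hy, h⟩
    have g1 := a1.mul x
    have g2 := b1.mul y
    rw [← h] at g2
    obtain ⟨u, hu⟩ := (g1 _).mp g2.mem
    obtain ⟨u', hu'⟩ := (g2 _).mp g1.mem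
    have n1 := mne hO a0 (E.ne hx)
    have n2 := mne hO b0 (E.ne hy)
    have e1 : u' * u = 1 := rc hO n1 (by rw [mul_assoc, ← hu, ← hu', one_mul])
    have u0 : u ≠ 0 := by
      rintro rfl
      exact n2 (by rw [hu, zero_mul])
    have e2 : nr u' * nr u = 1 := by rw [← hO.nrMul, e1, nr_one]
    refine ⟨u, Int.eq_one_of_mul_eq_one_left (hO.nrPos u u0).le e2, rc hO n1 ?_⟩
    have c1 : α * ι x * emb v₀ = emb v * (α * ι x) := by
      rw [mul_assoc, E.comm', ← mul_assoc, a2, mul_assoc]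
    have c2 : β * ι y * emb v₀ = emb w * (β * ι y) := by
      rw [mul_assoc, E.comm', ← mul_assoc, b2, mul_assoc]
    rw [mul_assoc, ← c1, ← mul_assoc, ← hu, c2, hu, mul_assoc]
  · rintro ⟨u, hu, h⟩
    have s1 : star β * emb w = emb v₀ * star β := by
      have := congrArg star b2
      rw [star_mul, star_mul, star_emb, star_emb, neg_mul, mul_neg] at this
      exact (neg_injective this).symm
    obtain ⟨l, hl⟩ := E.surj' hO (α := star β * u * α) (by
      rw [mul_assoc, a2, ← mul_assoc, mul_assoc (star β), h, ← mul_assoc, s1]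
      simp only [mul_assoc])
    have N0 : nr β ≠ 0 := (hO.nrPos β b0).ne'
    have u0 : u ≠ 0 := by
      rintro rfl
      simp [nr] at hu
    have l0 : l ≠ 0 := by
      rintro rfl
      rw [map_zero] at hl
      exact mne hO (mne hO (star_ne_zero.mpr b0) u0) a0 hl.symm
    have N1 : ((nr β : ℤ) : R) ≠ 0 := fun h0 => int_ne N0 (by rw [← map_intCast ι, h0, map_zero])
    have g1 := a1.mul ((nr β : ℤ) : R)
    have g2 := b1.mul l
    rw [map_intCast] at g1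
    have e1 : β * ι l = u * (α * (nr β : OO)) := by
      rw [hl, ← mul_assoc, ← mul_assoc, (hO.nrStar β).1, ← mul_assoc u, mul_assoc _ u,
        (Int.cast_commute (nr β) (u * α)).eq]
    have e2 : α * (nr β : OO) = star u * (β * ι l) := by
      rw [e1, ← mul_assoc, (hO.nrStar u).2, hu, Int.cast_one, one_mul]
    refine ⟨_, l, N1, l0, le_antisymm (le_of_LL hO E ?_ fun x hx => ?_)
      (le_of_LL hO E ?_ fun x hx => ?_)⟩
    · exact mul_ne_zero (by simpa using l0) J0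
    · obtain ⟨y, hy⟩ := (g1 x).mp hx
      exact (g2 x).mpr ⟨y * star u, by rw [hy, e2, mul_assoc]⟩
    · exact mul_ne_zero (by simpa using N1) I0
    · obtain ⟨y, hy⟩ := (g2 x).mp hx
      exact (g1 x).mpr ⟨y * u, by rw [hy, e1, mul_assoc]⟩

theorem good_rep (hO : RowQO) (hG : RowQG) (E : Em n v₀ x₀ ι) (c : ClassGroup R) :
    ∃ I : (Ideal R)⁰, ClassGroup.mk0 I = c ∧ ∃ t ∈ (I : Ideal R), ¬ 3 ∣ nr (ι t) := by
  obtain ⟨J, hJ⟩ := ClassGroup.mk0_surjective c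
  obtain ⟨_, ⟨I, hI, rfl⟩, hmax⟩ := set_has_maximal_iff_noetherian.mpr
    (inferInstance : IsNoetherian R R)
    {A : Ideal R | ∃ I : (Ideal R)⁰, ClassGroup.mk0 I = c ∧ (I : Ideal R) = A} ⟨J, J, hJ, rfl⟩
  refine ⟨I, hI, ?_⟩
  by_contra hc
  push Not at hc
  have h1 : (I : Ideal R) ≤ Ideal.span {3} := fun t ht => by
    obtain ⟨β, hβ⟩ := hG.three n v₀ (ι t) E.md E.mem (E.comm' t) (hc t ht)
    obtain ⟨r, rfl⟩ := E.surj β (lc hO three_ne (by
      have e : 3 * (x₀ * β) = x₀ * (3 * β) := by noncomm_ring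
      rw [e, ← mul_assoc, ← hβ, E.comm]))
    refine Ideal.mem_span_singleton.mpr ⟨r, E.inj ?_⟩
    rw [hβ, map_mul, map_ofNat]
  obtain ⟨I', hI'⟩ := Ideal.dvd_iff_le.mpr h1
  have I0 : (I : Ideal R) ≠ 0 := nonZeroDivisors.ne_zero I.2
  have I1 : I' ≠ 0 := by
    rintro rfl
    exact I0 (by rw [hI', mul_zero])
  have t0 : (3 : R) ≠ 0 := fun h0 => three_ne (by rw [← map_ofNat ι 3, h0, map_zero])
  refine hmax I' ⟨⟨I', mem_nonZeroDivisors_of_ne_zero I1⟩, ?_, rfl⟩ (lt_of_le_of_ne ?_ fun h => ?_)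
  · rw [← hI, ClassGroup.mk0_eq_mk0_iff]
    exact ⟨3, 1, t0, one_ne_zero, by simp [hI']⟩
  · exact Ideal.le_of_dvd ⟨Ideal.span {3}, by rw [hI', mul_comm]⟩
  · rw [h] at hI'
    have h2 : (Ideal.span {3} : Ideal R) = 1 :=
      mul_right_cancel₀ I1 (by rw [one_mul]; exact hI'.symm)
    rw [Ideal.one_eq_top, Ideal.span_singleton_eq_top] at h2
    obtain ⟨r, hr⟩ := h2.exists_right_inv
    have h3 := congrArg (fun z => (ι z).re) hr
    simp only [map_mul, map_ofNat, map_one] at h3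
    have h4 : ((3 : OO) * ι r).re = 3 * (ι r).re := by
      have : (3 : OO) * ι r = ι r + ι r + ι r := by noncomm_ring
      rw [this]; simp; ring
    rw [h4] at h3
    simp at h3
    omega

theorem count [Finite (ClassGroup R)] (hO : RowQO) (hG : RowQG) (hB : RowORB)
    (E : Em n v₀ x₀ ι) : (Rp0 n).card = 4 * Nat.card (ClassGroup R) := by
  have key : ∀ v : V, ∃ I : (Ideal R)⁰, v ∈ Rp n → 3 ∣ v.2.1 - v₀.2.1 → Rel ι v₀ v I := by
    intro v
    by_cases h : v ∈ Rp n ∧ 3 ∣ v.2.1 - v₀.2.1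
    · obtain ⟨I, hI⟩ := ex_rel hO hG E h.1 h.2
      exact ⟨⟨I, mem_nonZeroDivisors_of_ne_zero hI.ne_bot⟩, fun _ _ => hI⟩
    · exact ⟨1, fun h1 h2 => absurd ⟨h1, h2⟩ h⟩
  choose f hf using key
  refine hB n _ v₀ (fun v => Finite.equivFin _ (ClassGroup.mk0 (f v))) E.md E.sf E.mem
    (fun i => ?_) fun v hv w hw h1 h2 => ?_
  · obtain ⟨I, hI, ht⟩ := good_rep hO hG E ((Finite.equivFin _).symm i)
    obtain ⟨v, hv, h1, h2⟩ := rel_ex hO hG E (nonZeroDivisors.ne_zero I.2)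
    refine ⟨v, hv, h2 ht, ?_⟩
    have := (cls_iff hO E (hf v hv (h2 ht)) h1).mpr ⟨1, nr_one, by simp⟩
    simp only [this, hI, Equiv.apply_symm_apply]
  · rw [← cls_iff hO E (hf v hv h1) (hf w hw h2)]
    exact (Finite.equivFin _).injective.eq_iff

end Ven

open Ven in
theorem rowVEN : OfVEN := by
  intro hN hO hG hB hA K _ _ n s τ hq
  obtain ⟨v₀, hv⟩ := hA n hq.md hq.sf
  have hm := hq.md
  obtain ⟨x₀, hx⟩ := hO.half' n v₀ (by omega) hv
  obtain ⟨m, hm4⟩ : ∃ m : ℕ, n + 1 = 4 * m := ⟨(n + 1) / 4, by omega⟩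
  have hx2 : x₀ * x₀ = x₀ - m := by
    apply lc hO (mne hO two_ne two_ne)
    have h1 := emb_sq hO hv
    have h2 : (n : OO) + 1 = 4 * m := by exact_mod_cast congrArg (Nat.cast : ℕ → OO) hm4
    have h3 : (2 * x₀ - 1) * (2 * x₀ - 1) = 2 * 2 * (x₀ * x₀) - 2 * 2 * x₀ + 1 := by noncomm_ring
    have h4 : (2 : OO) * 2 * (x₀ - m) = 2 * 2 * x₀ - 4 * m := by noncomm_ring
    rw [hx, h3] at h1
    rw [h4, ← h2, ← sub_eq_zero, ← sub_eq_zero.mpr h1]
    abel
  obtain ⟨w, hw⟩ : ∃ w : K, w = (1 + s) / 2 := ⟨_, rfl⟩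
  have hw2 : w * w = w - m := by
    have h2 : (n : K) + 1 = 4 * m := by exact_mod_cast congrArg (Nat.cast : ℕ → K) hm4
    have h1 := hq.sq
    rw [hw]
    linear_combination (1 / 4) * h1 - (1 / 4) * h2
  have hint := hN.int K n s τ hq
  rw [← hw] at hint
  have huniq : ∀ a b a' b' : ℤ, (a : K) + b * w = a' + b' * w → a = a' ∧ b = b' := by
    intro a b a' b' h
    have := (hN.rep K n s τ hq).2 (a - a' + (b - b') / 2) ((b - b') / 2) (by
      rw [hw] at h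
      push_cast
      linear_combination h)
    have h2 : (b : ℚ) = b' := by linarith [this.2]
    have h1 : (a : ℚ) = a' := by linarith [this.1]
    exact ⟨by exact_mod_cast h1, by exact_mod_cast h2⟩
  choose a b hab using fun z : 𝓞 K => (hint z).mp (RingOfIntegers.isIntegral_coe z)
  have hkey : ∀ (z : 𝓞 K) (c d : ℤ), (z : K) = c + d * w →
      (a z : OO) + b z * x₀ = c + d * x₀ := fun z c d h => by
    obtain ⟨h1, h2⟩ := huniq _ _ _ _ ((hab z).symm.trans h)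
    rw [h1, h2]
  have hc : ∀ c : ℤ, x₀ * c = c * x₀ := fun c => (Int.cast_commute c x₀).eq.symm
  let ι : 𝓞 K →+* OO :=
    { toFun := fun z => a z + b z * x₀
      map_one' := by rw [hkey 1 1 0 (by simp)]; simp
      map_zero' := by rw [hkey 0 0 0 (by simp)]; simp
      map_add' := fun y z => by
        rw [hkey (y + z) (a y + a z) (b y + b z) (by
          push_cast
          linear_combination hab y + hab z)]
        push_cast
        noncomm_ring
      map_mul' := fun y z => by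
        rw [hkey (y * z) (a y * a z - b y * b z * m) (a y * b z + b y * a z + b y * b z) (by
          push_cast
          linear_combination (z : K) * hab y + (a y + b y * w) * hab z + (b y * b z : K) * hw2)]
        have e : ((a y : OO) + b y * x₀) * (a z + b z * x₀) =
            a y * a z + a y * b z * x₀ + b y * (x₀ * a z) + b y * (x₀ * b z) * x₀ := by
          noncomm_ring
        rw [e, hc, hc, mul_assoc (b y : OO) (b z * x₀), mul_assoc (b z : OO), hx2]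
        push_cast
        noncomm_ring }
  have hι : ∀ z, ι z = a z + b z * x₀ := fun _ => rfl
  refine count hO hG hB (v₀ := v₀) (x₀ := x₀) (ι := ι) ⟨hm, hq.sf, hv, hx, fun z => ?_,
    fun α h => ?_, ?_⟩
  · rw [hι, add_mul, mul_add, hc, ← mul_assoc, hc]
  · obtain ⟨c, d, h⟩ := hO.cent n v₀ x₀ α (by omega) hq.sf hv hx h
    refine ⟨⟨c + d * w, (hint _).mpr ⟨c, d, rfl⟩⟩, ?_⟩
    rw [hι, h]
    exact hkey _ c d rfl
  · refine (injective_iff_map_eq_zero ι).mpr fun z hz => ?_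
    rw [hι] at hz
    have h1 : (b z : OO) * emb v₀ = ((-2 * a z - b z : ℤ) : OO) := by
      have e : (b z : OO) * (2 * x₀ - 1) = 2 * (a z + b z * x₀) - 2 * a z - b z := by
        noncomm_ring
      rw [hx, e, hz]
      push_cast
      noncomm_ring
    have h2 : ((-(b z ^ 2 * n) : ℤ) : OO) = (((-2 * a z - b z) ^ 2 : ℤ) : OO) := by
      rw [Int.cast_pow, ← h1, sq ((b z : OO) * emb v₀), mul_assoc, ← mul_assoc (emb v₀),
        ← (Int.cast_commute (b z) (emb v₀)).eq, mul_assoc, emb_sq hO hv]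
      push_cast
      noncomm_ring
    have h3 := int_inj h2
    have n0 : (0 : ℤ) < n := by omega
    have h4 : b z = 0 := by
      by_contra h0
      have := mul_pos (sq_pos_of_ne_zero h0) n0
      nlinarith [sq_nonneg (-2 * a z - b z)]
    have h5 : a z = 0 := by
      rw [h4] at hz
      exact int_inj (by simpa using hz)
    have := hab z
    rw [h4, h5] at this
    simpa using this

end Pool.Agent.MP_5f72fe_nt.H11
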