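import Pool.Agent.MP_5f72fe_nt.H3.SpecC

/-! The dimension of the space of forms with the multiplier of `η⁸ θ`. -/

namespace Pool.Agent.MP_5f72fe_nt.H11

open Pool.Agent.MP_5f72fe_nt.H3 Complex
open scoped MatrixGroups PowerSeries UpperHalfPlane

namespace Wdim

theorem hol_of_ex {F : ℂ → ℂ} {ρ : ℝ} (h : Ex ρ F) (h0 : ρ = 0) : Hol1 F := by
  subst h0
  simpa [Ex, E] using h

theorem sm_par {c : ℕ → ℂ} (h : Sm c) (μ : ℕ) : Sm (par μ c) := fun r h0 h1 =>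
  (h r h0 h1).of_nonneg_of_le (fun n => by positivity) fun n => by
    apply mul_le_mul_of_nonneg_right _ (by positivity)
    unfold par
    split_ifs
    · exact le_rfl
    · simp

theorem exC (hS : RowSER) (r : ℕ) {c : ℕ → ℂ} (h : Sm c) (h1 : ∀ n, c n ≠ 0 → ∃ t, n = r + 12 * t) :
    Ex (r / 12) (ser 12 c) ∧ Ld (r / 12) (ser 12 c) (c r) := by
  simpa using hS.ex 12 r c (by norm_num) h h1

theorem exZ (hS : RowSER) {r : ℕ} {F : ℤ⟦X⟧} (h : Sm (cz F)) (h1 : Sup 12 r F) :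
    Ex (r / 12) (sr F) ∧ Ld (r / 12) (sr F) (cz F r) :=
  exC hS r h fun n hn => h1 n fun h0 => hn (by simp [cz, h0])

theorem sm_all (hS : RowSER) (hB : RowBASE) :
    Sm (cz (Hm 0)) ∧ Sm (cz (Hm 1)) ∧ Sm (cz E8) ∧ Sm (cz D6) := by
  obtain ⟨R, hR, -⟩ := hS.ring
  have t0 := (hR _).mpr (hB.sm.1 0 (by norm_num))
  have t1 := (hR _).mpr (hB.sm.1 1 (by norm_num))
  have a := (hR _).mpr hB.sm.2.1
  have k := (hR _).mpr hB.sm.2.2.1
  refine ⟨(hR _).mp ?_, (hR _).mp ?_, (hR _).mp ?_, (hR _).mp ?_⟩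
  · exact R.mul_mem t0 (R.sub_mem (R.pow_mem t0 4) (R.mul_mem (ofNat_mem R 5) (R.pow_mem t1 4)))
  · exact R.mul_mem t1 (R.sub_mem (R.pow_mem t1 4) (R.mul_mem (ofNat_mem R 5) (R.pow_mem t0 4)))
  · exact R.mul_mem k (R.sub_mem (R.pow_mem a 3) (R.mul_mem (ofNat_mem R 27) (R.pow_mem k 3)))
  · exact R.mul_mem (R.mul_mem t0 t1) (R.sub_mem (R.pow_mem t0 4) (R.pow_mem t1 4))

theorem dim (j : ℕ) (hj : Even j) :
    Module.finrank ℂ (ModularForm 𝒮ℒ (j : ℤ) × ModularForm 𝒮ℒ ((j : ℤ) - 2)) ≤ j / 6 + 1 := by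
  have key : ∀ k : ℕ, Even k → Module.finrank ℂ (ModularForm 𝒮ℒ (k : ℤ)) =
      if k % 12 = 2 then k / 12 else k / 12 + 1 := fun k hk => by
    apply Module.finrank_eq_of_rank_eq
    rw [ModularForm.dimension_level_one k hk]
    by_cases h : k % 12 = 2
    · rw [if_pos h, if_pos (show k ≡ 2 [MOD 12] from h)]
    · rw [if_neg h, if_neg (show ¬ k ≡ 2 [MOD 12] from h)]
  rw [Module.finrank_prod, key j hj]
  obtain ⟨i, rfl⟩ := hj
  rcases i with _ | i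
  · have : Module.finrank ℂ (ModularForm 𝒮ℒ (((0 + 0 : ℕ) : ℤ) - 2)) = 0 :=
      Module.finrank_eq_of_rank_eq
        (by exact_mod_cast ModularForm.levelOne_neg_weight_rank_zero (by norm_num))
    rw [this]; norm_num
  · have e : ((i + 1 + (i + 1) : ℕ) : ℤ) - 2 = ((i + i : ℕ) : ℤ) := by push_cast; ring
    rw [e, key _ ⟨i, rfl⟩]
    split_ifs <;> omega

/-- the two quotients -/
noncomputable def FF (h : ℕ → ℂ) (τ : ℂ) : ℂ :=
  (1 * (ser 12 (par 0 h) τ * sr (Hm 1) τ) + -1 * (ser 12 (par 1 h) τ * sr (Hm 0) τ)) /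
    (sr D6 τ * sr E8 τ)

noncomputable def GG (h : ℕ → ℂ) (τ : ℂ) : ℂ :=
  (1 * (ser 12 (par 1 h) τ * sr (Tm 0) τ) + -1 * (ser 12 (par 0 h) τ * sr (Tm 1) τ)) /
    (sr D6 τ * sr E8 τ)

theorem hol (hS : RowSER) (hI : RowINT) (hB : RowBASE) (hN : RowNZ) {j : ℕ} {h : ℕ → ℂ}
    (hw : WL j h) : Hol1 (FF h) ∧ Hol1 (GG h) := by
  obtain ⟨s0, s1, sE, sD⟩ := sm_all hS hB
  have h0 := (exC hS 4 (sm_par hw.1 0) fun n hn => by
    have h1 : n % 2 = 0 ∧ h n ≠ 0 := by simpa [par] using hn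
    have h2 := hw.2.1 n h1.2
    exact ⟨n / 12, by omega⟩).1
  have h1 := (exC hS 7 (sm_par hw.1 1) fun n hn => by
    have h1 : n % 2 = 1 ∧ h n ≠ 0 := by simpa [par] using hn
    have h2 := hw.2.1 n h1.2
    exact ⟨n / 12, by omega⟩).1
  have H0 := (exZ hS s0 hI.supH.1).1
  have H1 := (exZ hS s1 hI.supH.2).1
  have T0 := (exZ hS (hB.sm.1 0 (by norm_num)) hI.supT.1).1
  have T1 := (exZ hS (hB.sm.1 1 (by norm_num)) hI.supT.2.1).1
  have eE := exZ hS sE hI.supE.1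
  have eD := exZ hS sD hI.supD.1
  have d1 := hS.exMul _ _ _ _ eD.1 eE.1
  have d2 := hS.ldMul _ _ _ _ _ _ eD.2 eE.2
  have d3 : cz D6 3 * cz E8 4 ≠ 0 := by simp [cz, hI.supD.2, hI.supE.2]
  have d4 : ∀ τ : ℂ, 0 < τ.im → sr D6 τ * sr E8 τ ≠ 0 := fun τ hτ =>
    mul_ne_zero (hN.neD τ hτ) (hN.neE τ hτ)
  have e1 : ((4 : ℕ) : ℝ) / 12 + ((3 : ℕ) : ℝ) / 12 = ((7 : ℕ) : ℝ) / 12 + ((0 : ℕ) : ℝ) / 12 := by
    norm_num
  constructor
  · have a := hS.exMul _ _ _ _ h0 H1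
    rw [e1] at a
    exact hol_of_ex (hS.exDiv _ _ _ _ _ (hS.exAdd _ _ _ 1 (-1) a (hS.exMul _ _ _ _ h1 H0))
      d1 d2 d3 d4) (by norm_num)
  · have a := hS.exMul _ _ _ _ h0 T1
    rw [e1] at a
    exact hol_of_ex (hS.exDiv _ _ _ _ _ (hS.exAdd _ _ _ 1 (-1) (hS.exMul _ _ _ _ h1 T0) a)
      d1 d2 d3 d4) (by norm_num)

theorem law (hJ : RowJH) (hB : RowBASE) (hN : RowNZ) {j : ℕ} {h : ℕ → ℂ} (hw : WL j h) (τ : ℂ)
    (hτ : 0 < τ.im) : FF h (-1 / τ) = τ ^ (j : ℤ) * FF h τ ∧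
      GG h (-1 / τ) = τ ^ ((j : ℤ) - 2) * GG h τ := by
  have a0 := hw.2.2 τ hτ 0 (by norm_num)
  have a1 := hw.2.2 τ hτ 1 (by norm_num)
  rw [Nat.cast_one, one_mul] at a0 a1
  have t0 : τ ≠ 0 := by rintro rfl; simp at hτ
  have r2 : ((√2 : ℝ) : ℂ) ^ 2 = 2 := by
    rw [← Complex.ofReal_pow, Real.sq_sqrt (by norm_num)]; norm_num
  have r0 : ((√2 : ℝ) : ℂ) ≠ 0 := by
    intro h0; rw [h0] at r2; norm_num at r2
  have j0 := hJ.jne τ hτ
  have j2 := hJ.sq τ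
  have jj : I ^ j * Jh τ ^ (2 * j + 9) = τ ^ j * Jh τ ^ 9 := by
    rw [pow_add, pow_mul, j2, ← mul_assoc, ← mul_pow]
    congr 2
    linear_combination (-τ) * I_mul_I
  have j4 : Jh τ ^ 4 = -τ ^ 2 := by
    rw [show Jh τ ^ 4 = (Jh τ ^ 2) ^ 2 by ring, j2]
    linear_combination τ ^ 2 * I_mul_I
  rw [jj] at a0 a1
  have nD := hN.neD τ hτ
  have nE := hN.neE τ hτ
  unfold FF GG
  rw [a0, a1, hN.lawH τ hτ 0 (by norm_num), hN.lawH τ hτ 1 (by norm_num),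
    hB.lawT τ hτ 0 (by norm_num), hB.lawT τ hτ 1 (by norm_num), hN.lawD τ hτ, hN.lawE τ hτ,
    zpow_sub₀ t0, zpow_natCast, zpow_ofNat]
  generalize ser 12 (par 0 h) τ = x0
  generalize ser 12 (par 1 h) τ = x1
  generalize sr (Hm 0) τ = y0
  generalize sr (Hm 1) τ = y1
  generalize sr (Tm 0) τ = z0
  generalize sr (Tm 1) τ = z1
  generalize sr D6 τ = d at *
  generalize sr E8 τ = e at *
  generalize Jh τ = J at *
  generalize ((√2 : ℝ) : ℂ) = r at *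
  generalize τ ^ j = p
  constructor
  · field_simp
    rw [r2, show J ^ 8 = (J ^ 4) ^ 2 by ring, j4]
    ring
  · field_simp
    rw [r2, j4]
    ring

theorem ser_sum (hS : RowSER) {h : ℕ → ℂ} (hh : Sm h) (τ : ℂ) (hτ : 0 < τ.im) :
    HasSum (fun n : ℕ => h n * E (n * τ / (12 : ℕ)))
      (ser 12 (par 0 h) τ + ser 12 (par 1 h) τ) := by
  have h0 := (hS.nsum 12 _ τ (by norm_num) (sm_par hh 0) hτ).of_norm.hasSum
  have h1 := (hS.nsum 12 _ τ (by norm_num) (sm_par hh 1) hτ).of_norm.hasSum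
  have e : (fun n : ℕ => h n * E (n * τ / (12 : ℕ))) =
      fun n : ℕ => par 0 h n * E (n * τ / (12 : ℕ)) + par 1 h n * E (n * τ / (12 : ℕ)) := by
    funext n
    rcases Nat.mod_two_eq_zero_or_one n with h2 | h2 <;> simp [par, h2]
  rw [e]
  exact h0.add h1

end Wdim

open Wdim in
theorem rowWDIM : OfWDIM := by
  intro hS hJ hI hB hN j ι _ h hj hw hli
  choose f hf using fun i => hS.lev j _ (hol hS hI hB hN (hw i)).1
    fun τ hτ => (law hJ hB hN (hw i) τ hτ).1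
  choose g hg using fun i => hS.lev (j - 2) _ (hol hS hI hB hN (hw i)).2
    fun τ hτ => (law hJ hB hN (hw i) τ hτ).2
  refine le_trans (LinearIndependent.fintype_card_le_finrank (b := fun i => (f i, g i)) ?_) (dim j hj)
  rw [Fintype.linearIndependent_iff] at hli ⊢
  intro x hx
  apply hli x
  have h1 : ∑ i, x i • f i = 0 := by simpa [Prod.fst_sum] using congrArg Prod.fst hx
  have h2 : ∑ i, x i • g i = 0 := by simpa [Prod.snd_sum] using congrArg Prod.snd hx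
  apply hS.uniq 12 _ 0 (by norm_num)
  intro τ hτ
  have ev : ∀ (k : ℤ) (u : ι → ModularForm 𝒮ℒ k) (z : ℍ), (∑ i, x i • u i) z = ∑ i, x i * u i z := by
    intro k u z
    induction (Finset.univ : Finset ι) using Finset.cons_induction with
    | empty => simp
    | cons a s ha ih => simp [Finset.sum_cons, ih]
  have h3 := ev _ f ⟨τ, hτ⟩
  have h4 := ev _ g ⟨τ, hτ⟩
  rw [h1] at h3
  rw [h2] at h4
  simp only [hf, hg, zero_apply] at h3 h4
  have h5 : ∀ i, ser 12 (par 0 (h i)) τ + ser 12 (par 1 (h i)) τ =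
      -(sr E8 τ / 6) * (FF (h i) τ * (sr (Tm 0) τ + sr (Tm 1) τ) +
        GG (h i) τ * (sr (Hm 0) τ + sr (Hm 1) τ)) := fun i => by
    have nD := hN.neD τ hτ
    have nE := hN.neE τ hτ
    unfold FF GG
    field_simp
    linear_combination (ser 12 (par 0 (h i)) τ + ser 12 (par 1 (h i)) τ) * hN.det τ hτ
  have h6 := hasSum_sum (s := Finset.univ) fun i _ => (ser_sum hS (hw i).1 τ hτ).mul_left (x i)
  have h7 : ∑ i, x i * (ser 12 (par 0 (h i)) τ + ser 12 (par 1 (h i)) τ) = 0 := by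
    have : ∀ i, x i * (ser 12 (par 0 (h i)) τ + ser 12 (par 1 (h i)) τ) =
        -(sr E8 τ / 6) * (sr (Tm 0) τ + sr (Tm 1) τ) * (x i * FF (h i) τ) +
          -(sr E8 τ / 6) * (sr (Hm 0) τ + sr (Hm 1) τ) * (x i * GG (h i) τ) := fun i => by
      rw [h5]; ring
    simp only [this, Finset.sum_add_distrib, ← Finset.mul_sum, ← h3, ← h4]
    simp
  rw [h7] at h6
  simpa only [Finset.sum_apply, Pi.smul_apply, smul_eq_mul, Finset.sum_mul, mul_assoc] using h6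

end Pool.Agent.MP_5f72fe_nt.H11
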